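import Mathlib
import Pool.Agent.H.MP_d09f5b_an.B

namespace Pool.Agent.Results.MP_d09f5b_an.Permanence
open MeasureTheory ENNReal

noncomputable def transl {G : Type} [AddCommGroup G] [MeasurableSpace G] [MeasurableAdd G]
    (μ : Measure G) [μ.IsAddLeftInvariant] (p : ℝ≥0∞) [Fact (1 ≤ p)] (x : G) :
    Lp ℂ p μ →L[ℂ] Lp ℂ p μ :=
  (Lp.compMeasurePreservingₗᵢ ℂ (fun y => x + y)
    (measurePreserving_add_left μ x)).toContinuousLinearMap

noncomputable def Mult {G : Type} [AddCommGroup G] [MeasurableSpace G] [MeasurableAdd G]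
    (μ : Measure G) [μ.IsAddLeftInvariant] (p : ℝ≥0∞) [Fact (1 ≤ p)] :
    Subalgebra ℂ (Lp ℂ p μ →L[ℂ] Lp ℂ p μ) :=
  Subalgebra.centralizer ℂ (Set.range (transl μ p))

def SpectralPermanence (A : Type) [NormedRing A] [NormedAlgebra ℂ A] : Prop :=
  ∀ (B : Type) [NormedCommRing B] [NormedAlgebra ℂ B] [CompleteSpace B] (ι : A →ₐ[ℂ] B),
    Topology.IsEmbedding ι → ∀ x : A, spectrum ℂ (ι x) = spectrum ℂ x

theorem result (G : Type) [AddCommGroup G] [TopologicalSpace G] [IsTopologicalAddGroup G]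
    [CompactSpace G] [T2Space G] [MeasurableSpace G] [BorelSpace G] (μ : Measure G)
    [μ.IsAddHaarMeasure] (p : ℝ≥0∞) [Fact (1 ≤ p)] (hp : p ≠ ⊤) :
    SpectralPermanence (Mult μ p) := by
  intro B _ _ _ ι hι x
  exact Pool.Agent.H.MP_d09f5b_an.perm μ
    (Pool.Agent.H.MP_d09f5b_an.rp μ p hp (transl μ p) fun _ _ => rfl) B ι hι x

end Pool.Agent.Results.MP_d09f5b_an.Permanence
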